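import Mathlib
import Pool.Agent.U830.MA.Stm

/-!
# Project MA, package FIELD: the roots of `X^7 + X + 1` in `GF(2^h)`, `7 ∣ h`
-/

set_option autoImplicit false

namespace Pool.Agent.U624.MA.FIELD

open Finset

section powers

variable {A : Type*} [CommRing A]

lemma pow128 (h2 : (2 : A) = 0) {a : A} (h : a ^ 7 + a + 1 = 0) : a ^ 128 = a := by
  have h8 : a ^ 8 = a ^ 2 + a := by linear_combination a * h - (a ^ 2 + a) * h2
  have h16 : a ^ 16 = a ^ 4 + a ^ 2 := by
    have e : a ^ 16 = (a ^ 8) ^ 2 := by ring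
    rw [e, h8]
    linear_combination a ^ 3 * h2
  have h32 : a ^ 32 = a ^ 4 + a ^ 2 + a := by
    have e : a ^ 32 = (a ^ 16) ^ 2 := by ring
    rw [e, h16]
    linear_combination h8 + a ^ 6 * h2
  have h64 : a ^ 64 = a ^ 4 + a := by
    have e : a ^ 64 = (a ^ 32) ^ 2 := by ring
    rw [e, h32]
    linear_combination h8 + (a ^ 6 + a ^ 5 + a ^ 3 + a ^ 2) * h2
  have e : a ^ 128 = (a ^ 64) ^ 2 := by ring
  rw [e, h64]
  linear_combination h8 + (a ^ 5 + a ^ 2) * h2

lemma pow128_mul (h2 : (2 : A) = 0) {a : A} (h : a ^ 7 + a + 1 = 0) (m : ℕ) :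
    a ^ 2 ^ (7 * m) = a := by
  induction m with
  | zero => simp
  | succ m ih =>
    have e : 2 ^ (7 * (m + 1)) = 2 ^ (7 * m) * 128 := by
      rw [Nat.mul_succ, pow_add]
      norm_num
    rw [e, pow_mul, ih, pow128 h2 h]

lemma trace7 (h2 : (2 : A) = 0) {a : A} (h : a ^ 7 + a + 1 = 0) :
    ∑ b ∈ range 7, (1 + a ^ 3) ^ 2 ^ b = 1 := by
  have sq : ∀ x y : A, (x + y) ^ 2 = x ^ 2 + y ^ 2 := fun x y => by
    linear_combination x * y * h2
  have h7 : a ^ 7 = a + 1 := by linear_combination h - (a + 1) * h2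
  have h8 : a ^ 8 = a ^ 2 + a := by linear_combination a * h7
  have h10 : a ^ 10 = a ^ 4 + a ^ 3 := by linear_combination a ^ 3 * h7
  have h12 : a ^ 12 = a ^ 6 + a ^ 5 := by linear_combination a ^ 5 * h7
  have t0 : (1 + a ^ 3) ^ 2 ^ 0 = 1 + a ^ 3 := by ring
  have t1 : (1 + a ^ 3) ^ 2 ^ 1 = 1 + a ^ 6 := by
    have e : (1 + a ^ 3) ^ 2 ^ 1 = (1 + a ^ 3) ^ 2 := by ring
    rw [e, sq]
    ring
  have t2 : (1 + a ^ 3) ^ 2 ^ 2 = 1 + a ^ 6 + a ^ 5 := by
    have e : (1 + a ^ 3) ^ 2 ^ 2 = ((1 + a ^ 3) ^ 2 ^ 1) ^ 2 := by ring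
    rw [e, t1, sq]
    linear_combination h12
  have t3 : (1 + a ^ 3) ^ 2 ^ 3 = 1 + a ^ 6 + a ^ 5 + a ^ 4 + a ^ 3 := by
    have e : (1 + a ^ 3) ^ 2 ^ 3 = ((1 + a ^ 3) ^ 2 ^ 2) ^ 2 := by ring
    rw [e, t2, sq, sq]
    linear_combination h12 + h10
  have t4 : (1 + a ^ 3) ^ 2 ^ 4 = 1 + a ^ 5 + a ^ 4 + a ^ 3 + a ^ 2 + a := by
    have e : (1 + a ^ 3) ^ 2 ^ 4 = ((1 + a ^ 3) ^ 2 ^ 3) ^ 2 := by ring
    rw [e, t3, sq, sq, sq, sq]
    linear_combination h12 + h10 + h8 + a ^ 6 * h2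
  have t5 : (1 + a ^ 3) ^ 2 ^ 5 = 1 + a ^ 6 + a ^ 3 + a := by
    have e : (1 + a ^ 3) ^ 2 ^ 5 = ((1 + a ^ 3) ^ 2 ^ 4) ^ 2 := by ring
    rw [e, t4, sq, sq, sq, sq, sq]
    linear_combination h10 + h8 + (a ^ 4 + a ^ 2) * h2
  have t6 : (1 + a ^ 3) ^ 2 ^ 6 = 1 + a ^ 5 + a ^ 2 := by
    have e : (1 + a ^ 3) ^ 2 ^ 6 = ((1 + a ^ 3) ^ 2 ^ 5) ^ 2 := by ring
    rw [e, t5, sq, sq, sq]
    linear_combination h12 + a ^ 6 * h2
  rw [sum_range_succ, sum_range_succ, sum_range_succ, sum_range_succ, sum_range_succ,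
    sum_range_succ, sum_range_one, t0, t1, t2, t3, t4, t5, t6]
  linear_combination (3 + 2 * a ^ 6 + 2 * a ^ 5 + a ^ 4 + 2 * a ^ 3 + a ^ 2 + a) * h2

end powers

section blocks

variable {A : Type*} [AddCommMonoid A]

lemma sum_blocks (f : ℕ → A) (n m : ℕ) :
    ∑ i ∈ range (n * m), f i = ∑ j ∈ range m, ∑ a ∈ range n, f (n * j + a) := by
  induction m with
  | zero => simp
  | succ m ih => rw [Nat.mul_succ, sum_range_add, ih, sum_range_succ]

/-- the sum of a `7`-periodic function over an arithmetic progression -/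
lemma sum_seven (g : ℕ → A) (hg : ∀ i, g i = g (i % 7)) (n : ℕ) (hn : ¬ 7 ∣ n) (a : ℕ) :
    ∑ b ∈ range 7, g (n * b + a) = ∑ b ∈ range 7, g b := by
  have h1 : ∀ b, g (n * b + a) = g (((n % 7) * b + a % 7) % 7) := by
    intro b
    rw [hg]
    congr 1
    simp [Nat.add_mod, Nat.mul_mod]
  simp only [h1]
  have hn7 : n % 7 ≠ 0 := fun h => hn (Nat.dvd_of_mod_eq_zero h)
  have hn8 : n % 7 < 7 := Nat.mod_lt _ (by norm_num)
  have ha8 : a % 7 < 7 := Nat.mod_lt _ (by norm_num)
  generalize n % 7 = r at *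
  generalize a % 7 = t at *
  clear h1 hn
  interval_cases r
  · exact absurd rfl hn7
  all_goals
    interval_cases t <;>
    simp only [sum_range_succ, sum_range_zero, Nat.reduceMul, Nat.reduceAdd, Nat.reduceMod,
      Nat.mul_zero, Nat.zero_add, Nat.mul_one, Nat.add_zero] <;>
    abel

end blocks

section roots

open Polynomial

variable (K : Type) [Field K] [Fintype K]

lemma roots_card (h2 : (2 : K) = 0) (m : ℕ) (hK : Fintype.card K = 2 ^ (7 * m)) :
    ∃ R : Finset K, R.card = 7 ∧ ∀ a, a ∈ R ↔ a ^ 7 + a + 1 = 0 := by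
  classical
  set P : K[X] := X ^ 7 + X + 1 with hP
  have hdeg : P.natDegree = 7 := by
    rw [hP]
    compute_degree!
  have hP0 : P ≠ 0 := by
    intro h
    rw [h, natDegree_zero] at hdeg
    omega
  have hroot : (AdjoinRoot.root P) ^ 7 + AdjoinRoot.root P + 1 = 0 := by
    have h1 : AdjoinRoot.mk P P = 0 := AdjoinRoot.mk_self
    have h3 : AdjoinRoot.mk P (X ^ 7 + X + 1) = 0 := h1
    rw [map_add, map_add, map_pow, map_one, AdjoinRoot.mk_X] at h3
    exact h3
  have h2' : (2 : AdjoinRoot P) = 0 := by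
    have h1 : algebraMap K (AdjoinRoot P) 2 = 0 := by rw [h2, map_zero]
    rw [map_ofNat] at h1
    exact h1
  have hdvd : P ∣ X ^ Fintype.card K - X := by
    rw [← AdjoinRoot.mk_eq_zero, map_sub, map_pow, AdjoinRoot.mk_X, hK, pow128_mul h2' hroot, sub_self]
  have hq0 : (X ^ Fintype.card K - X : K[X]) ≠ 0 :=
    FiniteField.X_pow_card_sub_X_ne_zero K Fintype.one_lt_card
  have hqs : Splits (X ^ Fintype.card K - X : K[X]) := by
    rw [splits_iff_card_roots, FiniteField.roots_X_pow_card_sub_X,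
      FiniteField.X_pow_card_sub_X_natDegree_eq K Fintype.one_lt_card]
    rfl
  have hs : Splits P := hqs.of_dvd hq0 hdvd
  have hle : P.roots ≤ Finset.univ.val := by
    rw [← FiniteField.roots_X_pow_card_sub_X K]
    exact roots.le_of_dvd hq0 hdvd
  have hnd : P.roots.Nodup := Multiset.nodup_of_le hle Finset.univ.nodup
  refine ⟨P.roots.toFinset, ?_, fun a => ?_⟩
  · rw [Multiset.toFinset_card_of_nodup hnd, ← hs.natDegree_eq_card_roots, hdeg]
  · rw [Multiset.mem_toFinset, mem_roots hP0, IsRoot.def, hP]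
    simp

end roots

section main

variable {K : Type} [Field K] [Fintype K] [Algebra (ZMod 2) K]

lemma trace_sum {h : ℕ} (hK : Fintype.card K = 2 ^ h) (x : K) :
    algebraMap (ZMod 2) K (Algebra.trace (ZMod 2) K x) = ∑ i ∈ range h, x ^ 2 ^ i := by
  have h1 := FiniteField.algebraMap_trace_eq_sum_pow (ZMod 2) K x
  have h2 : Module.finrank (ZMod 2) K = h := by
    have h3 := Module.card_eq_pow_finrank (K := ZMod 2) (V := K)
    rw [hK, ZMod.card] at h3
    exact (Nat.pow_right_injective (le_refl 2) h3).symm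
  rw [h2, Nat.card_zmod] at h1
  exact h1

theorem main : Pool.Agent.U830.MA.S_FIELD := by
  intro K _ _ _ h hK h7 h0
  classical
  have h2 : (2 : K) = 0 := by
    have h1 : algebraMap (ZMod 2) K 2 = 0 := by
      have : (2 : ZMod 2) = 0 := by decide
      rw [this, map_zero]
    rw [map_ofNat] at h1
    exact h1
  have : CharP K 2 := charP_of_injective_algebraMap (algebraMap (ZMod 2) K).injective 2
  -- `h = n * 7 ^ s`
  obtain ⟨s, n, hn, hh⟩ := Nat.exists_eq_pow_mul_and_not_dvd h0 7 (by norm_num)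
  have hs : s ≠ 0 := by
    rintro rfl
    rw [pow_zero, one_mul] at hh
    exact hn (hh ▸ h7)
  obtain ⟨u, rfl⟩ := Nat.exists_eq_succ_of_ne_zero hs
  rw [mul_comm] at hh
  have hmul : h = 7 * (h / 7) := (Nat.mul_div_cancel' h7).symm
  obtain ⟨R, hR, hRmem⟩ := roots_card K h2 (h / 7) (by rw [← hmul]; exact hK)
  -- `x ^ 2 ^ h = x`
  have hfix : ∀ x : K, x ^ 2 ^ h = x := fun x => by
    rw [← hK]
    exact FiniteField.pow_card x
  -- an element of trace one
  obtain ⟨d, hd⟩ := Algebra.trace_surjective (ZMod 2) K 1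
  have hdsum : ∑ i ∈ range h, d ^ 2 ^ i = 1 := by
    rw [← trace_sum hK, hd, map_one]
  set c : K := ∑ j ∈ range (7 ^ (u + 1)), d ^ 2 ^ (n * j) with hc
  have hcn : c ^ 2 ^ n = c := by
    have e1 : c ^ 2 ^ n = ∑ j ∈ range (7 ^ (u + 1)), d ^ 2 ^ (n * (j + 1)) := by
      rw [hc, sum_pow_char_pow]
      refine sum_congr rfl fun j _ => ?_
      rw [← pow_mul, ← pow_add]
      congr 2
    rw [e1]
    have e2 := Finset.sum_range_succ (fun j => d ^ 2 ^ (n * j)) (7 ^ (u + 1))
    have e3 := Finset.sum_range_succ' (fun j => d ^ 2 ^ (n * j)) (7 ^ (u + 1))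
    have e4 : d ^ 2 ^ (n * 7 ^ (u + 1)) = d := by
      have : n * 7 ^ (u + 1) = h := hh.symm
      rw [this]
      exact hfix d
    have e5 : d ^ 2 ^ (n * 0) = d := by simp
    rw [e3, e4, e5] at e2
    exact add_right_cancel e2
  have hcnj : ∀ j, c ^ 2 ^ (n * j) = c := by
    intro j
    induction j with
    | zero => simp
    | succ j ih =>
      rw [Nat.mul_succ, pow_add, pow_mul, ih, hcn]
  have htau : ∀ x : K, iterateFrobeniusEquiv K 2 n x = x ^ 2 ^ n := fun x => rfl
  have hit : ∀ (k : ℕ) (x : K), (iterateFrobeniusEquiv K 2 n)^[k] x = x ^ 2 ^ (n * k) := by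
    intro k x
    induction k with
    | zero => simp
    | succ k ih =>
      rw [Function.iterate_succ_apply', ih, htau, ← pow_mul, ← pow_add, Nat.mul_succ]
  refine ⟨c, iterateFrobeniusEquiv K 2 n, R, hR, hRmem, hcn, ?_, ?_, ?_⟩
  · intro a ha
    rw [hRmem] at ha
    set μ : K := 1 + a ^ 3 with hμ
    have hμ7 : μ ^ 2 ^ 7 = μ := by
      have e1 : a ^ 2 ^ 7 = a := by
        have := pow128 h2 ha
        norm_num
        exact this
      rw [hμ, add_pow_char_pow, one_pow, ← pow_mul, mul_comm 3, pow_mul, e1]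
    have hper : ∀ i, μ ^ 2 ^ i = μ ^ 2 ^ (i % 7) := by
      intro i
      have e1 : ∀ k, μ ^ 2 ^ (7 * k) = μ := by
        intro k
        induction k with
        | zero => simp
        | succ k ih => rw [Nat.mul_succ, pow_add, pow_mul, ih, hμ7]
      conv_lhs => rw [← Nat.div_add_mod i 7, pow_add, pow_mul, e1]
    have hinner : ∀ t, ∑ j ∈ range (7 ^ (u + 1)), μ ^ 2 ^ (n * j + t) = 1 := by
      intro t
      have e0 : 7 ^ (u + 1) = 7 * 7 ^ u := by rw [pow_succ, mul_comm]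
      rw [e0, sum_blocks (fun j => μ ^ 2 ^ (n * j + t)) 7 (7 ^ u)]
      have e1 : ∀ j ∈ range (7 ^ u), ∑ b ∈ range 7, μ ^ 2 ^ (n * (7 * j + b) + t) = 1 := by
        intro j _
        have e2 := sum_seven (fun i => μ ^ 2 ^ i) hper n hn (n * (7 * j) + t)
        have e3 := trace7 h2 ha
        rw [← hμ] at e3
        rw [e3] at e2
        rw [← e2]
        refine sum_congr rfl fun b _ => ?_
        congr 2
        ring
      rw [sum_congr rfl e1, sum_const, card_range, nsmul_one]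
      have e4 : Odd (7 ^ u) := Odd.pow (by decide)
      obtain ⟨v, hv⟩ := e4
      rw [hv]
      push_cast
      linear_combination (v : K) * h2
    have key : algebraMap (ZMod 2) K (Algebra.trace (ZMod 2) K (c * μ)) = 1 := by
      rw [trace_sum hK, hh, sum_blocks (fun i => (c * μ) ^ 2 ^ i) n (7 ^ (u + 1)), sum_comm]
      have e1 : ∀ t ∈ range n, ∑ j ∈ range (7 ^ (u + 1)), (c * μ) ^ 2 ^ (n * j + t) =
          ∑ j ∈ range (7 ^ (u + 1)), d ^ 2 ^ (n * j + t) := by
        intro t _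
        have e2 : ∀ j ∈ range (7 ^ (u + 1)), (c * μ) ^ 2 ^ (n * j + t) =
            c ^ 2 ^ t * μ ^ 2 ^ (n * j + t) := by
          intro j _
          rw [mul_pow, pow_add 2 (n * j) t, pow_mul c, hcnj]
        rw [sum_congr rfl e2, ← mul_sum, hinner, mul_one, hc, sum_pow_char_pow]
        refine sum_congr rfl fun j _ => ?_
        rw [← pow_mul, ← pow_add]
      rw [sum_congr rfl e1, sum_comm, ← sum_blocks (fun i => d ^ 2 ^ i) n (7 ^ (u + 1)), ← hh]
      exact hdsum
    have := (algebraMap (ZMod 2) K).injective (key.trans (map_one _).symm)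
    exact this
  · intro a ha hfa
    rw [hRmem] at ha
    rw [htau] at hfa
    have e1 : a ^ 2 ^ 7 = a := by
      have := pow128 h2 ha
      norm_num
      exact this
    have p1 : Function.IsPeriodicPt (fun x : K => x ^ 2) n a := by
      unfold Function.IsPeriodicPt Function.IsFixedPt
      rw [pow_iterate]
      exact hfa
    have p2 : Function.IsPeriodicPt (fun x : K => x ^ 2) 7 a := by
      unfold Function.IsPeriodicPt Function.IsFixedPt
      rw [pow_iterate]
      exact e1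
    have hg : Nat.gcd n 7 = 1 := by
      rw [Nat.gcd_comm]
      exact (Nat.Prime.coprime_iff_not_dvd (by norm_num)).2 hn
    have p3 := p1.gcd p2
    rw [hg] at p3
    have p4 : a ^ 2 = a := p3
    have p5 : a * (a - 1) = 0 := by linear_combination p4
    rcases mul_eq_zero.1 p5 with h5 | h5
    · rw [h5] at ha
      norm_num at ha
    · have h6 : a = 1 := by linear_combination h5
      rw [h6] at ha
      have h7' : (1 : K) = 0 := by linear_combination ha - h2
      exact one_ne_zero h7'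
  · intro a ha
    rw [hRmem] at ha
    rw [hit, mul_comm, pow128_mul h2 ha]

/-- Package FIELD of project MA. -/
theorem t_FIELD : Pool.Agent.U830.MA.S_FIELD := main

end main

end Pool.Agent.U624.MA.FIELD
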